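import Mathlib

set_option autoImplicit false

namespace Pool.Agent.Results.MP_4a71d8_al.Merge

/-- principal right ideal -/
def rid {S : Type} [Monoid S] (s : S) : Set S := {x | ∃ y, x = s * y}

def IsRightLCM (S : Type) [Monoid S] : Prop :=
  ∀ s t : S, rid s ∩ rid t = ∅ ∨ ∃ r : S, rid s ∩ rid t = rid r

def core (S : Type) [Monoid S] : Set S := {a | ∀ s : S, (rid a ∩ rid s).Nonempty}

def coreIrr (S : Type) [Monoid S] : Set S :=
  {s | s ∉ core S ∧ ∀ t a : S, a ∈ core S → s = t * a → IsUnit a}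

def ψ : ℕ → Fin 3 → Fin 3
  | 0, x => x
  | _ + 1, x => if x = 1 then 0 else x

lemma ψ_add (l m : ℕ) (x : Fin 3) : ψ m (ψ l x) = ψ (l + m) x := by
  rcases l with _ | l <;> rcases m with _ | m <;> fin_cases x <;> simp [ψ, Nat.add_right_comm]

@[ext] structure S where
  k : ℕ
  w : List (Fin 3)

instance : Countable S :=
  Function.Injective.countable (f := fun s : S => (s.k, s.w)) fun a b h =>
    S.ext (congrArg Prod.fst h) (congrArg Prod.snd h)

instance : Monoid S where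
  mul a b := ⟨a.k + b.k, a.w.map (ψ b.k) ++ b.w⟩
  one := ⟨0, []⟩
  mul_assoc a b c := S.ext (Nat.add_assoc _ _ _) (by
    change (a.w.map (ψ b.k) ++ b.w).map (ψ c.k) ++ c.w =
      a.w.map (ψ (b.k + c.k)) ++ (b.w.map (ψ c.k) ++ c.w)
    simp [Function.comp_def, ψ_add])
  one_mul a := S.ext (Nat.zero_add _) rfl
  mul_one a := S.ext rfl (by
    change a.w.map (ψ 0) ++ [] = a.w
    simp [show ψ 0 = id from rfl])

lemma mul_k (a b : S) : (a * b).k = a.k + b.k := rfl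
lemma mul_w (a b : S) : (a * b).w = a.w.map (ψ b.k) ++ b.w := rfl

lemma mem_rid {s x : S} : x ∈ rid s ↔ s.k ≤ x.k ∧ s.w.map (ψ (x.k - s.k)) <+: x.w := by
  constructor
  · rintro ⟨y, rfl⟩
    simp [mul_k, mul_w]
  · rintro ⟨h, v, hv⟩
    exact ⟨⟨x.k - s.k, v⟩, S.ext (by simp [mul_k, h]) hv.symm⟩

lemma lcm : IsRightLCM S := by
  classical
  intro s t
  by_cases h : ∃ n, ∃ x ∈ rid s ∩ rid t, x.k = n
  swap
  · exact Or.inl (Set.eq_empty_of_forall_notMem fun x hx => h ⟨_, x, hx, rfl⟩)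
  obtain ⟨x, ⟨h1, h2⟩, hx⟩ := Nat.find_spec h
  have hmin : ∀ y ∈ rid s ∩ rid t, x.k ≤ y.k := fun y hy => hx ▸ Nat.find_min' h ⟨y, hy, rfl⟩
  rw [mem_rid] at h1 h2
  have key : ∀ s t : S, s.k ≤ x.k → t.k ≤ x.k → (∀ y ∈ rid s ∩ rid t, x.k ≤ y.k) →
      s.w.map (ψ (x.k - s.k)) <+: t.w.map (ψ (x.k - t.k)) →
      rid s ∩ rid t = rid ⟨x.k, t.w.map (ψ (x.k - t.k))⟩ := by
    intro s t hs ht hm hp
    ext y
    constructor
    · intro hy
      have := hm y hy
      refine mem_rid.2 ⟨this, ?_⟩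
      simp only [List.map_map, Function.comp_def, ψ_add]
      rw [show x.k - t.k + (y.k - x.k) = y.k - t.k by omega]
      exact (mem_rid.1 hy.2).2
    · intro hy
      obtain ⟨h3, h4⟩ := mem_rid.1 hy
      simp only at h3 h4
      have h5 := (hp.map (ψ (y.k - x.k))).trans h4
      simp only [List.map_map, Function.comp_def, ψ_add] at h4 h5
      rw [show x.k - t.k + (y.k - x.k) = y.k - t.k by omega] at h4
      rw [show x.k - s.k + (y.k - x.k) = y.k - s.k by omega] at h5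
      exact ⟨mem_rid.2 ⟨by omega, h5⟩, mem_rid.2 ⟨by omega, h4⟩⟩
  rcases List.prefix_or_prefix_of_prefix h1.2 h2.2 with hp | hp
  · exact Or.inr ⟨_, key s t h1.1 h2.1 hmin hp⟩
  · exact Or.inr ⟨_, by
      rw [Set.inter_comm]
      exact key t s h2.1 h1.1 (fun y hy => hmin y ⟨hy.2, hy.1⟩) hp⟩

lemma not_core (k : ℕ) (x : Fin 3) (hx : x ≠ 2) : (⟨k, [x]⟩ : S) ∉ core S := by
  intro h
  obtain ⟨y, h1, h2⟩ := h ⟨0, [2]⟩
  obtain ⟨-, v, hv⟩ := mem_rid.1 h1
  obtain ⟨-, u, hu⟩ := mem_rid.1 h2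
  have := hv.trans hu.symm
  simp only [List.map_cons, List.map_nil, List.cons_append, List.nil_append, List.cons.injEq]
    at this
  have e := this.1
  revert e
  generalize y.k - k = a
  generalize y.k - 0 = b
  rcases a with _ | a <;> rcases b with _ | b <;> fin_cases x <;> simp_all [ψ]

lemma core_w {a : S} (h : a ∈ core S) : a.w = [] := by
  obtain ⟨y, h1, h2⟩ := h ⟨0, [2]⟩
  obtain ⟨y', h1', h2'⟩ := h ⟨0, [0]⟩
  obtain ⟨k, _ | ⟨x, w⟩⟩ := a
  · rfl
  exfalso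
  obtain ⟨-, v, hv⟩ := mem_rid.1 h1
  obtain ⟨-, u, hu⟩ := mem_rid.1 h2
  obtain ⟨-, v', hv'⟩ := mem_rid.1 h1'
  obtain ⟨-, u', hu'⟩ := mem_rid.1 h2'
  have e := (List.cons.inj (hv.trans hu.symm)).1
  have e' := (List.cons.inj (hv'.trans hu'.symm)).1
  revert e e'
  generalize y.k - k = a
  generalize y.k - 0 = b
  generalize y'.k - k = c
  generalize y'.k - 0 = d
  rcases a with _ | a <;> rcases b with _ | b <;> rcases c with _ | c <;> rcases d with _ | d <;>
    fin_cases x <;> simp [ψ]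

lemma irr (x : Fin 3) (hx : x ≠ 2) : (⟨0, [x]⟩ : S) ∈ coreIrr S := by
  refine ⟨not_core 0 x hx, fun t a ha h => ?_⟩
  have h1 : a.k = 0 := by
    have := congrArg S.k h
    simp only [mul_k] at this
    omega
  have : a = 1 := S.ext h1 (core_w ha)
  rw [this]; exact isUnit_one

theorem result : ∃ (S : Type) (_ : Monoid S), Countable S ∧
    (∀ a b c : S, a * b = a * c → b = c) ∧ IsRightLCM S ∧
    ∃ s ∈ coreIrr S, ∃ t ∈ coreIrr S, ∃ r : S, rid s ∩ rid t = rid r ∧ r ∉ coreIrr S := by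
  refine ⟨S, inferInstance, inferInstance, fun a b c h => ?_, lcm, ⟨0, [0]⟩, irr 0 (by decide),
    ⟨0, [1]⟩, irr 1 (by decide), ⟨1, [0]⟩, ?_, fun h => ?_⟩
  · have h1 : b.k = c.k := by
      have := congrArg S.k h
      simp only [mul_k] at this
      omega
    have h2 := congrArg S.w h
    rw [mul_w, mul_w, h1] at h2
    exact S.ext h1 (List.append_cancel_left h2)
  · ext ⟨k, w⟩
    simp only [Set.mem_inter_iff, mem_rid]
    rcases k with _ | _ | k
    · simp only [ψ, zero_le, true_and, Nat.sub_zero, List.map_cons, List.map_nil]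
      refine ⟨fun ⟨⟨u, hu⟩, ⟨v, hv⟩⟩ => ?_, fun h => absurd h.1 (by simp)⟩
      simpa using (List.cons.inj (hu.trans hv.symm)).1
    · simp [ψ]
    · simp [ψ]
  · have := h.2 ⟨0, [0]⟩ ⟨1, []⟩ (fun s => ⟨s * ⟨1, []⟩, mem_rid.2 ⟨by simp [mul_k], by simp⟩,
      _, rfl⟩) rfl
    obtain ⟨b, hb⟩ := this.exists_right_inv
    have := congrArg S.k hb
    simp only [mul_k] at this
    change _ = 0 at this
    omega

end Pool.Agent.Results.MP_4a71d8_al.Merge
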